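import Pool.Agent.Results.MP_028c7c_co.HexagonNumbers
import Pool.Agent.Helper79.HH.Upper
import Pool.Agent.Helper79.HH.Lower2
import Pool.Agent.Helper79.HH.Strip2

/-!
# No triangles and quadrangles, one dominating face (MP_028c7c_co)

The definitions (`Admissible`, `S`, `large`, triangulated spheres) are those of
`HexagonNumbers.lean`.
-/

namespace Pool.Agent.Results.MP_028c7c_co.DominatingFace

open Pool.Agent.Helper79.HX Pool.Agent.Helper79.HH Finset
open Pool.Agent.Results.MP_028c7c_co.HexagonNumbers

/-- The sizes of the prescribed faces with at least seven sides, except one `K`-gon. -/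
noncomputable def others (q : ℕ →₀ ℕ) (K : ℕ) : Multiset ℕ :=
  ((Finsupp.toMultiset q).filter (fun k => 7 ≤ k)).erase K

/-- The number of sizes which are `±1` modulo five. -/
def pm1 (X : Multiset ℕ) : ℕ := X.countP (fun k => k % 5 = 1 ∨ k % 5 = 4)

/-- The number of sizes which are `±2` modulo five. -/
def pm2 (X : Multiset ℕ) : ℕ := X.countP (fun k => k % 5 = 2 ∨ k % 5 = 3)

/-- The number of sizes which are divisible by five. -/
def div5 (X : Multiset ℕ) : ℕ := X.countP (fun k => k % 5 = 0)

/-- The threshold: `6, 4, 2, 2, 1, 1, 0, 0, ...`. -/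
def thr (j : ℕ) : ℕ :=
  if j = 0 then 6 else if j = 1 then 4 else if j ≤ 3 then 2 else if j ≤ 5 then 1 else 0

theorem wt_eq (X : Multiset ℕ) : wt X = (pm1 X, pm2 X) := by
  induction X using Multiset.induction_on with
  | empty => simp [wt, pm1, pm2]; rfl
  | cons a X ih =>
    rw [wt_cons, ih, pm1, pm2, pm1, pm2, Multiset.countP_cons, Multiset.countP_cons]
    rcases cl_cases a with ⟨h1, h2⟩ | ⟨h1, h2⟩ | ⟨h1, h2⟩
    · rw [h1, if_pos h2, if_neg (by omega), Prod.mk_add_mk]
      simp only [Prod.mk.injEq]
      omega
    · rw [h1, if_neg (by omega), if_pos h2, Prod.mk_add_mk]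
      simp only [Prod.mk.injEq]
      omega
    · rw [h1, if_neg (by omega), if_neg (by omega), Prod.mk_add_mk]
      simp only [Prod.mk.injEq]
      omega

theorem cond_iff (i j n : ℕ) : Cond (n + i) j ↔ thr j ≤ n + i := by
  unfold Cond thr
  split_ifs <;> omega

/-- The multiset of the degrees. -/
theorem degs {q : ℕ →₀ ℕ} (hq : Admissible q) {T : Finset (Finset ℕ)} {n : ℕ}
    (h6 : faceCount T 6 = n) (hk : ∀ k, k ≠ 6 → faceCount T k = q k) :
    (verts T).val.map (deg T) = Multiset.replicate (q 3) 3 + Multiset.replicate (q 4) 4 +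
      Multiset.replicate (q 5) 5 + Multiset.replicate n 6 + large q := by
  obtain ⟨h0, h1, h2, h6', -⟩ := hq
  ext k
  have hcount : ((verts T).val.map (deg T)).count k = faceCount T k := by
    rw [Multiset.count_map, faceCount, Finset.card, Finset.filter_val]
    congr 1
    apply Multiset.filter_congr
    intro v _
    exact eq_comm
  rw [hcount]
  simp only [Multiset.count_add, Multiset.count_replicate, count_large]
  rcases Nat.lt_or_ge k 7 with h7 | h7
  · interval_cases k
    · rw [hk 0 (by omega)]; simp [h0]
    · rw [hk 1 (by omega)]; simp [h1]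
    · rw [hk 2 (by omega)]; simp [h2]
    · rw [hk 3 (by omega)]; simp
    · rw [hk 4 (by omega)]; simp
    · rw [hk 5 (by omega)]; simp
    · rw [h6]; simp
  · have h3 : ¬ (3 = k) := by omega
    have h4 : ¬ (4 = k) := by omega
    have h5 : ¬ (5 = k) := by omega
    have h6 : ¬ (6 = k) := by omega
    rw [hk k (by omega)]
    simp [h3, h4, h5, h6, h7]

theorem others_seven (q : ℕ →₀ ℕ) (K : ℕ) : ∀ a ∈ others q K, 7 ≤ a := by
  intro a ha
  exact (Multiset.mem_filter.1 (Multiset.mem_of_mem_erase ha)).2

/-- `7 m ≤ s`, and `3 s` exceeds `21 m + 9 c` where `c` is the number of multiples of five. -/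
theorem sum_ge {L : Multiset ℕ} (h7 : ∀ a ∈ L, 7 ≤ a) :
    21 * Multiset.card L + 9 * div5 L ≤ 3 * L.sum := by
  induction L using Multiset.induction_on with
  | empty => simp [div5]
  | cons a L ih =>
    have h1 := ih (fun b hb => h7 b (Multiset.mem_cons_of_mem hb))
    have h2 := h7 a (by simp)
    unfold div5 at h1 ⊢
    rw [Multiset.card_cons, Multiset.sum_cons, Multiset.countP_cons]
    split_ifs with h <;> omega

/-- **The lower bound.** -/
theorem lower_bound {q : ℕ →₀ ℕ} {K : ℕ} (hq : Admissible q) (h3 : q 3 = 0) (h4 : q 4 = 0)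
    (hKq : q K ≠ 0)
    (hK : 5 * (others q K).sum + 65 ≤ 2 * K + 21 * Multiset.card (others q K)) {n : ℕ}
    (hn : n ∈ S q) : thr (pm2 (others q K)) ≤ n + pm1 (others q K) := by
  have h7 := others_seven q K
  set L := others q K with hL
  have hge := sum_ge h7
  have hK7 : 7 ≤ K := by omega
  have hKl : K ∈ large q := by
    rw [← Multiset.count_pos, count_large, if_pos hK7]; omega
  have hlarge : large q = K ::ₘ L := (Multiset.cons_erase hKl).symm
  rcases Nat.lt_or_ge n 6 with hn6 | hn6
  swap
  · unfold thr
    split_ifs <;> omega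
  obtain ⟨T, hS, h6, hk⟩ := hn
  have hdeg := degs hq h6 hk
  rw [h3, h4, Multiset.replicate_zero, Multiset.replicate_zero, zero_add, zero_add, hlarge] at hdeg
  -- the vertex of degree `K`
  have hKT : K ∈ (verts T).val.map (deg T) := by
    rw [hdeg]
    exact Multiset.mem_add.2 (Or.inr (by simp))
  obtain ⟨D, hD, hDK⟩ := Multiset.mem_map.1 hKT
  have hD' : D ∈ verts T := hD
  have herase : ((verts T).erase D).val.map (deg T) =
      Multiset.replicate (q 5) 5 + Multiset.replicate n 6 + L := by
    have h1 : (verts T).val = D ::ₘ ((verts T).erase D).val := by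
      rw [Finset.erase_val, Multiset.cons_erase hD]
    rw [h1, Multiset.map_cons, hDK, Multiset.add_cons] at hdeg
    exact (Multiset.cons_inj_right K).1 hdeg
  have hmem : ∀ v ∈ verts T, v ≠ D → 5 ≤ deg T v := by
    intro v hv hvD
    have h1 : deg T v ∈ ((verts T).erase D).val.map (deg T) :=
      Multiset.mem_map_of_mem _ (Finset.mem_erase.2 ⟨hvD, hv⟩)
    rw [herase] at h1
    rcases Multiset.mem_add.1 h1 with h | h
    · rcases Multiset.mem_add.1 h with h | h
      · exact (Multiset.eq_of_mem_replicate h).ge
      · have := Multiset.eq_of_mem_replicate h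
        omega
    · have := h7 _ h
      omega
  -- the number of vertices
  have hcard : (verts T).card = 1 + q 5 + n + Multiset.card L := by
    have h1 := congrArg Multiset.card herase
    simp only [Multiset.card_map, Multiset.card_add, Multiset.card_replicate] at h1
    have h2 : Multiset.card ((verts T).erase D).val = (verts T).card - 1 :=
      Finset.card_erase_of_mem hD'
    have h3 := Finset.card_pos.2 ⟨D, hD'⟩
    omega
  -- the sum of the degrees
  have hsix : (q 5 : ℤ) + 6 * Multiset.card L = 6 + K + L.sum := by
    have h1 := sum_six_sub hS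
    have e1 : ∑ v ∈ verts T, ((6 : ℤ) - (deg T v : ℤ)) =
        (((verts T).val.map (deg T)).map (fun k : ℕ => (6 : ℤ) - (k : ℤ))).sum := by
      rw [Multiset.map_map]; rfl
    have e2 : (L.map (fun k : ℕ => (6 : ℤ) - (k : ℤ))).sum =
        6 * Multiset.card L - L.sum := by
      clear_value L
      clear hlarge hdeg herase hK hL hge h7 hcard
      induction L using Multiset.induction_on with
      | empty => simp
      | cons a L ih =>
        rw [Multiset.map_cons, Multiset.sum_cons, ih, Multiset.card_cons, Multiset.sum_cons]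
        push_cast
        ring
    rw [e1, hdeg, Multiset.map_add, Multiset.map_add, Multiset.map_replicate,
      Multiset.map_replicate, Multiset.sum_add, Multiset.sum_add, Multiset.sum_replicate,
      Multiset.sum_replicate, Multiset.map_cons, Multiset.sum_cons, e2] at h1
    simp only [nsmul_eq_mul] at h1
    generalize L.sum = s at h1 ⊢
    push_cast at h1
    linarith
  have hs : 2 * ∑ x ∈ (verts T).erase D, S2.hf T x + Multiset.card L ≤ 4 * n + L.sum := by
    have e2 : ∑ x ∈ (verts T).erase D, S2.hf T x =
        ((((verts T).erase D).val.map (deg T)).map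
          (fun d => if d = 5 then 0 else (d - 1) / 2)).sum := by
      rw [Multiset.map_map]; rfl
    have e3 : 2 * (L.map (fun d => if d = 5 then 0 else (d - 1) / 2)).sum + Multiset.card L ≤
        L.sum := by
      clear_value L
      clear hlarge hdeg herase hK hL hge hcard hsix e2
      induction L using Multiset.induction_on with
      | empty => simp
      | cons a L ih =>
        have k1 := ih (fun b hb => h7 b (Multiset.mem_cons_of_mem hb))
        have k2 := h7 a (by simp)
        rw [Multiset.map_cons, Multiset.sum_cons, Multiset.sum_cons, Multiset.card_cons,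
          if_neg (by omega)]
        omega
    rw [e2, herase, Multiset.map_add, Multiset.map_add, Multiset.map_replicate,
      Multiset.map_replicate, Multiset.sum_add, Multiset.sum_add, Multiset.sum_replicate,
      Multiset.sum_replicate]
    have c5 : (if (5 : ℕ) = 5 then 0 else (5 - 1) / 2) = 0 := by decide
    have c6 : (if (6 : ℕ) = 5 then 0 else (6 - 1) / 2) = 2 := by decide
    rw [c5, c6, smul_eq_mul, smul_eq_mul]
    omega
  obtain ⟨v, v1, v2, y, y1, y2, st⟩ := S2.strip_exists2 (Closed.of_sphere hS) (links hS)
    hD' hmem (by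
      rw [hDK]
      change 2 * ((verts T).card - 1 - K) + ∑ x ∈ (verts T).erase D, S2.hf T x < K
      omega)
  obtain ⟨u, w, hu, hw, huw⟩ := lower_strip hS st
  have hsum : ∑ a ∈ (verts T).erase D, cl (deg T a) = (n + pm1 L, pm2 L) := by
    have e1 : ∑ a ∈ (verts T).erase D, cl (deg T a) =
        wt (((verts T).erase D).val.map (deg T)) := by
      rw [wt, Multiset.map_map]; rfl
    rw [e1, herase, wt_add, wt_add, wt_replicate_five, wt_replicate_six, wt_eq]
    simp
  rw [hsum] at huw
  rw [← cond_iff]
  unfold InF at hu hw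
  unfold Cond
  have k1 : u.1 + w.1 = n + pm1 L := congrArg Prod.fst huw
  have k2 : u.2 + w.2 = pm2 L := congrArg Prod.snd huw
  omega

/-- **The construction.** -/
theorem construction {q : ℕ →₀ ℕ} {K : ℕ} (hq : Admissible q) (h3 : q 3 = 0) (h4 : q 4 = 0)
    (hKq : q K ≠ 0) (hK : (others q K).sum + div5 (others q K) + 22 ≤ K) {n : ℕ}
    (hn : thr (pm2 (others q K)) ≤ n + pm1 (others q K)) : n ∈ S q := by
  have h7 := others_seven q K
  set L := others q K with hL
  have hKl : K ∈ large q := by
    rw [← Multiset.count_pos, count_large, if_pos (by omega)]; omega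
  have hlarge : large q = K ::ₘ L := (Multiset.cons_erase hKl).symm
  obtain ⟨p, hp⟩ := upper (n := n) (K := K) h7 hK (by
    rw [wt_eq]; exact (cond_iff _ _ _).2 hn)
  refine fin_mem hq (p := p) (hp.congr ?_)
  intro j
  rw [h3, h4, hlarge]
  simp only [Multiset.replicate_zero, Multiset.count_add, Multiset.count_zero]
  omega

/-- **Theorem.** Let `q` be admissible without triangles and quadrangles, with a `K`-gon, let
`L` be the multiset of the sizes of the other faces with at least seven sides, let `s` be its
sum and `m` its cardinality, and let `i` and `j` be the numbers of elements of `L` which are `±1`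
and `±2` modulo five.
If `2 K ≥ 5 s - 21 m + 65`, then `n ∈ S(q)` if and only if `n + i ≥ thr j`, where
`thr 0 = 6`, `thr 1 = 4`, `thr 2 = thr 3 = 2`, `thr 4 = thr 5 = 1` and `thr j = 0` for `j ≥ 6`. -/
theorem result (q : ℕ →₀ ℕ) (K : ℕ) (hq : Admissible q) (h3 : q 3 = 0) (h4 : q 4 = 0)
    (hKq : q K ≠ 0)
    (hK : 5 * (others q K).sum + 65 ≤ 2 * K + 21 * Multiset.card (others q K)) :
    S q = {n | thr (pm2 (others q K)) ≤ n + pm1 (others q K)} := by
  apply Set.Subset.antisymm
  · intro n hn
    exact lower_bound hq h3 h4 hKq hK hn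
  · intro n hn
    refine construction hq h3 h4 hKq ?_ hn
    have := sum_ge (others_seven q K)
    omega

end Pool.Agent.Results.MP_028c7c_co.DominatingFace
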