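import Pool.Agent.Helper79.HX.One
import Pool.Agent.Helper79.HX.Big
import Pool.Agent.Helper79.HY.Stage0

/-!
# Admissible numbers of hexagons in simple 3-polytopes (MP_028c7c_co)

Simple 3-polytopes are represented by the boundary complexes of their polar duals: simplicial
3-polytopes, that is (Steinitz), triangulated 2-spheres.  A triangulated sphere is given by the
finite set of its triangles (`Pool.Agent.Helper79.HX.IsSphere`): every triangle has three
vertices, every edge of a triangle lies in exactly two triangles, the triangles are connected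
through common edges, and the Euler characteristic is 2 (with `E = 3 F / 2` this says
`2 V = F + 4`).  A face with `k` vertices of the simple polytope corresponds to a vertex of
degree `k` (a vertex contained in exactly `k` triangles) of the triangulated sphere.
-/

namespace Pool.Agent.Results.MP_028c7c_co.HexagonNumbers

open Pool.Agent.Helper79.HX Finset

/-- The number of `k`-gons of the simple polytope: the number of vertices of degree `k` of the
triangulated sphere `T`. -/
def faceCount (T : Finset (Finset ℕ)) (k : ℕ) : ℕ :=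
  ((verts T).filter (fun v => deg T v = k)).card

/-- Admissible sequences `(p_3, p_4, p_5, p_7, p_8, ...)`, as finitely supported functions with
`q 0 = q 1 = q 2 = q 6 = 0`. -/
def Admissible (q : ℕ →₀ ℕ) : Prop :=
  q 0 = 0 ∧ q 1 = 0 ∧ q 2 = 0 ∧ q 6 = 0 ∧ (q.sum fun k m => (6 - (k : ℤ)) * (m : ℤ)) = 12

/-- The set `S(q)` of the numbers of hexagons. -/
def S (q : ℕ →₀ ℕ) : Set ℕ :=
  {n | ∃ T, IsSphere T ∧ faceCount T 6 = n ∧ ∀ k, k ≠ 6 → faceCount T k = q k}

/-- The number of faces prescribed by `q`. -/
def total (q : ℕ →₀ ℕ) : ℕ := q.sum fun _ m => m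

/-- The sum of `k - 5` over all prescribed faces with at least seven sides except one `K`-gon. -/
def rest (q : ℕ →₀ ℕ) (K : ℕ) : ℕ :=
  (∑ k ∈ q.support.filter (fun k => 7 ≤ k), (k - 5) * q k) - (K - 5)

/-- The number of pentagons which is needed. -/
def need (q : ℕ →₀ ℕ) (K : ℕ) : ℕ :=
  if rest q K = 0 then 2 else 3 + 2 * (rest q K + 4 - (q 3 + q 4))

/-- The sum of `k - 6` over all prescribed faces with at least seven sides except one `K`-gon. -/
def excess (q : ℕ →₀ ℕ) (K : ℕ) : ℕ :=
  (∑ k ∈ q.support.filter (fun k => 7 ≤ k), (k - 6) * q k) - (K - 6)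

theorem total_eq (q : ℕ →₀ ℕ) : total q = Multiset.card (Finsupp.toMultiset q) := by
  rw [Finsupp.card_toMultiset]; rfl

theorem sum_map_eq (q : ℕ →₀ ℕ) : (q.sum fun k m => (6 - (k : ℤ)) * (m : ℤ)) =
    ((Finsupp.toMultiset q).map (fun k : ℕ => (6 : ℤ) - (k : ℤ))).sum := by
  rw [Finset.sum_multiset_map_count, Finsupp.toFinset_toMultiset, Finsupp.sum]
  apply Finset.sum_congr rfl
  intro k _
  rw [Finsupp.count_toMultiset, nsmul_eq_mul, mul_comm]

/-- The multiset of the large faces. -/
noncomputable def large (q : ℕ →₀ ℕ) : Multiset ℕ := (Finsupp.toMultiset q).filter (fun k => 7 ≤ k)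

theorem count_large (q : ℕ →₀ ℕ) (k : ℕ) :
    (large q).count k = if 7 ≤ k then q k else 0 := by
  rw [large, Multiset.count_filter, Finsupp.count_toMultiset]

theorem toMultiset_eq {q : ℕ →₀ ℕ} (hq : Admissible q) :
    Finsupp.toMultiset q = Multiset.replicate (q 3) 3 + Multiset.replicate (q 4) 4 +
      Multiset.replicate (q 5) 5 + large q := by
  obtain ⟨h0, h1, h2, h6, -⟩ := hq
  ext k
  rw [Finsupp.count_toMultiset]
  simp only [Multiset.count_add, Multiset.count_replicate, count_large]
  rcases Nat.lt_or_ge k 7 with h | h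
  · interval_cases k <;> simp [h0, h1, h2, h6]
  · have h3 : ¬ (3 = k) := by omega
    have h4 : ¬ (4 = k) := by omega
    have h5 : ¬ (5 = k) := by omega
    simp [h, h3, h4, h5]

theorem sum_large (q : ℕ →₀ ℕ) : ((large q).map (fun k => k - 5)).sum =
    ∑ k ∈ q.support.filter (fun k => 7 ≤ k), (k - 5) * q k := by
  rw [Finset.sum_multiset_map_count]
  have : (large q).toFinset = q.support.filter (fun k => 7 ≤ k) := by
    rw [large, Multiset.toFinset_filter, Finsupp.toFinset_toMultiset]
  rw [this]
  apply Finset.sum_congr rfl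
  intro k hk
  rw [count_large, if_pos (Finset.mem_filter.1 hk).2, smul_eq_mul, mul_comm]

/-- Lower bound. -/
theorem lower {q : ℕ →₀ ℕ} {K : ℕ} (hK : 7 ≤ K) (hKq : q K ≠ 0) {n : ℕ} (hn : n ∈ S q) :
    K + 1 ≤ n + total q := by
  obtain ⟨T, hS, h6, hk⟩ := hn
  have hKT : faceCount T K ≠ 0 := by rw [hk K (by omega)]; exact hKq
  obtain ⟨v, hv⟩ := Finset.card_pos.1 (Nat.pos_of_ne_zero hKT)
  obtain ⟨hv1, hv2⟩ := Finset.mem_filter.1 hv
  have h1 := deg_lt hS hv1
  rw [hv2] at h1
  have h2 : (verts T).card = ∑ k ∈ insert 6 (q.support.erase 6), faceCount T k := by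
    apply Finset.card_eq_sum_card_fiberwise
    intro w hw
    simp only [Finset.coe_insert, Set.mem_insert_iff, Finset.mem_coe, Finset.mem_erase,
      Finsupp.mem_support_iff]
    by_cases hw6 : deg T w = 6
    · exact Or.inl hw6
    · right
      refine ⟨hw6, ?_⟩
      rw [← hk _ hw6]
      have hw' : w ∈ (verts T).filter (fun v => deg T v = deg T w) :=
        Finset.mem_filter.2 ⟨hw, rfl⟩
      exact (Finset.card_pos.2 ⟨w, hw'⟩).ne'
  rw [Finset.sum_insert (by simp), h6] at h2
  have h3 : ∑ k ∈ q.support.erase 6, faceCount T k = ∑ k ∈ q.support.erase 6, q k := by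
    apply Finset.sum_congr rfl
    intro k hk'
    exact hk k (Finset.mem_erase.1 hk').1
  have h4 : ∑ k ∈ q.support.erase 6, q k ≤ total q :=
    Finset.sum_le_sum_of_subset (Finset.erase_subset _ _)
  omega

/-- A configuration with the right degrees gives an element of `S q`. -/
theorem upper_aux {q : ℕ →₀ ℕ} {K : ℕ} (hq : Admissible q) (hK : 7 ≤ K)
    {n n0 h z x y : ℕ} {M Dm : Multiset ℕ} (hlarge : large q = K ::ₘ Dm)
    (hz : z + n0 = Multiset.card M + 2)
    (hconf : Conf z x y M) (hn : n0 + (K + 1) = n + total q)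
    (hM : x ::ₘ y ::ₘ M = Multiset.replicate (q 3) 3 + Multiset.replicate (q 4) 4 +
      Multiset.replicate (q 5) 5 + Multiset.replicate (n0 + h) 6 + Dm) :
    n ∈ S q := by
  obtain ⟨T, hS, hT⟩ := hconf.degrees
  rw [hM] at hT
  -- the degree of the hub is `K`
  have hsum := sum_six_sub hS
  have e1 : ∑ v ∈ verts T, ((6 : ℤ) - (deg T v : ℤ)) =
      (((verts T).val.map (deg T)).map (fun k : ℕ => (6 : ℤ) - (k : ℤ))).sum := by
    rw [Multiset.map_map]; rfl
  have e2 := hq.2.2.2.2
  rw [sum_map_eq, toMultiset_eq hq, hlarge] at e2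
  rw [e1, hT] at hsum
  simp only [Multiset.map_cons, Multiset.map_add, Multiset.map_replicate, Multiset.sum_cons,
    Multiset.sum_add, Multiset.sum_replicate, nsmul_eq_mul] at hsum e2
  have hzK : z = K := by
    push_cast at hsum e2
    have : (z : ℤ) = K := by linarith
    exact_mod_cast this
  subst hzK
  -- the number of hexagons is `n`
  have hcardM : Multiset.card M + 2 = q 3 + q 4 + q 5 + (n0 + h) +
      Multiset.card Dm := by
    have := congrArg Multiset.card hM
    simpa using this
  have htot : total q = q 3 + q 4 + q 5 + (Multiset.card Dm + 1) := by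
    rw [total_eq, toMultiset_eq hq, hlarge]
    simp; ring
  have hn6 : n0 + h = n := by omega
  have hcount : ∀ k, faceCount T k = ((verts T).val.map (deg T)).count k := by
    intro k
    rw [Multiset.count_map, faceCount, Finset.card, Finset.filter_val]
    congr 1
    apply Multiset.filter_congr
    intro v _
    exact eq_comm
  have hcl : ∀ k, Dm.count k + (if k = z then 1 else 0) = if 7 ≤ k then q k else 0 := by
    intro k
    rw [← count_large, hlarge, Multiset.count_cons]
  obtain ⟨h0, h1, h2, h6, -⟩ := hq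
  refine ⟨T, hS, ?_, ?_⟩
  · rw [hcount, hT]
    have := hcl 6
    have hz6 : ¬ (6 = z) := by omega
    rw [if_neg hz6, if_neg (by omega)] at this
    simp only [Multiset.count_add, Multiset.count_cons, Multiset.count_replicate]
    simp [hz6]
    omega
  · intro k hk
    rw [hcount, hT]
    have := hcl k
    simp only [Multiset.count_add, Multiset.count_cons, Multiset.count_replicate]
    rcases Nat.lt_or_ge k 7 with h7 | h7
    · have hkz : ¬ (k = z) := by omega
      rw [if_neg hkz, if_neg (by omega)] at this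
      rw [if_neg hkz]
      have hc : Dm.count k = 0 := by omega
      interval_cases k
      · simp [h0, hc]
      · simp [h1, hc]
      · simp [h2, hc]
      · simp [hc]
      · simp [hc]
      · simp [hc]
      · exact absurd rfl hk
    · rw [if_pos h7] at this
      have h3 : ¬ (3 = k) := by omega
      have h4 : ¬ (4 = k) := by omega
      have h5 : ¬ (5 = k) := by omega
      have h6 : ¬ (6 = k) := by omega
      simp only [h3, h4, h5, h6, if_false]
      omega

theorem list_sum_eq (M : Multiset ℕ) : (M.toList.map (fun D => D - 5)).sum =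
    (M.map (fun D => D - 5)).sum := by
  rw [← Multiset.sum_coe, ← Multiset.map_coe, Multiset.coe_toList]

/-- The case of a dominant largest face. -/
theorem dominant (q : ℕ →₀ ℕ) (K : ℕ) (hq : Admissible q) (hK : 7 ≤ K) (hKq : q K ≠ 0)
    (h3 : 2 ≤ q 3)
    (hcase : (2 ≤ q 4 ∧ total q ≤ K + 1 ∧ need q K ≤ q 5) ∨
      (q 4 = 1 ∧ total q ≤ K ∧ need q K + 2 ≤ q 5)) :
    S q = {n | K + 1 ≤ n + total q} := by
  apply Set.Subset.antisymm
  · intro n hn
    exact lower hK hKq hn
  · intro n hn
    have hn : K + 1 ≤ n + total q := hn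
    set n0 := n + total q - (K + 1) with hn0
    set Dm := (large q).erase K with hDm
    have hKl : K ∈ large q := by
      rw [← Multiset.count_pos, count_large, if_pos hK]; omega
    have hlarge : large q = K ::ₘ Dm := (Multiset.cons_erase hKl).symm
    have hrest : rest q K = (Dm.map (fun D => D - 5)).sum := by
      have h1 := sum_large q
      rw [hlarge, Multiset.map_cons, Multiset.sum_cons] at h1
      rw [rest, ← h1]; omega
    have hD7 : ∀ D ∈ Dm, 7 ≤ D := by
      intro D hD
      have : D ∈ large q := Multiset.mem_of_mem_erase hD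
      exact (Multiset.mem_filter.1 this).2
    have hDl : ∀ D ∈ Dm.toList, 7 ≤ D := fun D hD => hD7 D (Multiset.mem_toList.1 hD)
    have htot : total q = q 3 + q 4 + q 5 + (Multiset.card Dm + 1) := by
      rw [total_eq, toMultiset_eq hq, hlarge]
      simp; ring
    -- Euler's relation
    have heuler : (K : ℤ) = 3 * q 3 + 2 * q 4 + q 5 - 6 + (Dm.map (fun k : ℕ => (6 : ℤ) - k)).sum := by
      have e2 := hq.2.2.2.2
      rw [sum_map_eq, toMultiset_eq hq, hlarge] at e2
      simp only [Multiset.map_cons, Multiset.map_add, Multiset.map_replicate, Multiset.sum_cons,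
        Multiset.sum_add, Multiset.sum_replicate, nsmul_eq_mul] at e2
      push_cast at e2
      linarith
    have hDsum : (Dm.map (fun k : ℕ => (6 : ℤ) - k)).sum =
        Multiset.card Dm - ((Dm.map (fun D => D - 5)).sum : ℕ) := by
      clear_value Dm
      clear hlarge hrest hDl htot heuler hDm
      induction Dm using Multiset.induction_on with
      | empty => simp
      | cons D Dm ih =>
        have h7 : 7 ≤ D := hD7 D (by simp)
        have ih' := ih (fun D' h => hD7 D' (Multiset.mem_cons_of_mem h))
        rw [Multiset.map_cons, Multiset.sum_cons, Multiset.map_cons, Multiset.sum_cons, ih',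
          Multiset.card_cons]
        push_cast [Nat.cast_sub (by omega : 5 ≤ D)]
        ring
    rw [hDsum, ← hrest] at heuler
    have hls : (Dm.toList.map (fun D => D - 5)).sum = rest q K := by rw [list_sum_eq, hrest]
    have hnil : rest q K = 0 → Dm = 0 := by
      intro h
      by_contra hne
      obtain ⟨D, hD⟩ := Multiset.exists_mem_of_ne_zero hne
      obtain ⟨D', hD'⟩ := Multiset.exists_cons_of_mem hD
      rw [hrest, hD', Multiset.map_cons, Multiset.sum_cons] at h
      have := hD7 D hD
      omega
    have hhead : ∀ D ∈ Dm.toList.head?, 4 + 1 ≤ D := by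
      intro D hD
      have := hDl D (List.mem_of_mem_head? hD)
      omega
    have hneed2 : 2 ≤ need q K := by
      unfold need; split_ifs <;> omega
    rcases hcase with ⟨h4, hdom, h5⟩ | ⟨h4, hdom, h5⟩
    · -- at least two quadrangles
      have hq5 : 1 ≤ q 5 := by omega
      have hA : ∃ hh, G n0 4 ({3, 4, 5} + Multiset.replicate n0 6 +
          Multiset.replicate (q 3 - 2) 3 + Multiset.replicate (q 4 - 2) 4 +
          Multiset.replicate (q 5 - 1) 5 + Multiset.replicate hh 6 + (Dm.toList : Multiset ℕ)) := by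
        by_cases hr : rest q K = 0
        · have hD0 := hnil hr
          rw [need, if_pos hr] at h5
          obtain ⟨hh, h⟩ := (G_start n0).finish (q 3 - 2) (q 4 - 2) (q 5 - 1) (by omega)
          exact ⟨hh, by rw [hD0]; simpa using h⟩
        · rw [need, if_neg hr] at h5
          exact G.main _ Dm.toList (q 3 - 2) (q 4 - 2) (q 5 - 1) (rest q K + 4 - (q 3 + q 4)) 4 _
            le_rfl hDl (G_start n0) le_rfl (fun _ => by omega) hhead
            (by rw [hls]; omega) (by omega) (by omega)
      obtain ⟨hh, z, hz, hconf⟩ := hA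
      refine upper_aux (h := hh) hq hK hlarge hz hconf (by omega) ?_
      rw [Multiset.coe_toList]
      ext k
      simp only [Multiset.count_add, Multiset.count_cons, Multiset.count_replicate,
        Multiset.insert_eq_cons, Multiset.count_singleton]
      split_ifs <;> omega
    · -- exactly one quadrangle
      have hq5 : 3 ≤ q 5 := by omega
      have hA : ∃ hh, G n0 4 ({3, 4, 5} + Multiset.replicate n0 6 +
          Multiset.replicate (q 3 - 3) 3 + Multiset.replicate 0 4 +
          Multiset.replicate (q 5 - 3) 5 + Multiset.replicate hh 6 + (Dm.toList : Multiset ℕ)) := by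
        by_cases hr : rest q K = 0
        · have hD0 := hnil hr
          rw [need, if_pos hr] at h5
          obtain ⟨hh, h⟩ := (G_start n0).finish (q 3 - 3) 0 (q 5 - 3) (by omega)
          exact ⟨hh, by rw [hD0]; simpa using h⟩
        · rw [need, if_neg hr] at h5
          exact G.main _ Dm.toList (q 3 - 3) 0 (q 5 - 3) (rest q K + 4 - (q 3 + q 4)) 4 _
            le_rfl hDl (G_start n0) le_rfl (fun _ => by omega) hhead
            (by rw [hls]; omega) (by omega) (by omega)
      obtain ⟨hh, hG⟩ := hA
      obtain ⟨z, hz, hconf⟩ := hG.f4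
      have hq3 : 3 ≤ q 3 := by omega
      refine upper_aux (h := hh + 1) hq hK hlarge hz hconf (by omega) ?_
      rw [Multiset.coe_toList, h4]
      ext k
      simp only [Multiset.count_add, Multiset.count_cons, Multiset.count_replicate,
        Multiset.insert_eq_cons, Multiset.count_singleton]
      split_ifs <;> omega

/-- A sphere with the right degrees gives an element of `S q`. -/
theorem fin_mem {q : ℕ →₀ ℕ} (hq : Admissible q) {n p : ℕ}
    (h : Fin' (Multiset.replicate (q 3) 3 + Multiset.replicate (q 4) 4 +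
      Multiset.replicate p 5 + Multiset.replicate n 6 + large q)) : n ∈ S q := by
  obtain ⟨T, hS, hT⟩ := h
  have hsum := sum_six_sub hS
  have e1 : ∑ v ∈ verts T, ((6 : ℤ) - (deg T v : ℤ)) =
      (((verts T).val.map (deg T)).map (fun k : ℕ => (6 : ℤ) - (k : ℤ))).sum := by
    rw [Multiset.map_map]; rfl
  have e2 := hq.2.2.2.2
  rw [sum_map_eq, toMultiset_eq hq] at e2
  rw [e1, hT] at hsum
  simp only [Multiset.map_add, Multiset.map_replicate, Multiset.sum_add, Multiset.sum_replicate,
    nsmul_eq_mul] at hsum e2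
  have hp : p = q 5 := by
    push_cast at hsum e2
    have : (p : ℤ) = q 5 := by linarith
    exact_mod_cast this
  subst hp
  have hcount : ∀ k, faceCount T k = ((verts T).val.map (deg T)).count k := by
    intro k
    rw [Multiset.count_map, faceCount, Finset.card, Finset.filter_val]
    congr 1
    apply Multiset.filter_congr
    intro v _
    exact eq_comm
  obtain ⟨h0, h1, h2, h6, -⟩ := hq
  refine ⟨T, hS, ?_, ?_⟩
  · rw [hcount, hT]
    simp only [Multiset.count_add, Multiset.count_replicate, count_large]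
    simp
  · intro k hk
    rw [hcount, hT]
    simp only [Multiset.count_add, Multiset.count_replicate, count_large]
    rcases Nat.lt_or_ge k 7 with h7 | h7
    · interval_cases k
      · simp [h0]
      · simp [h1]
      · simp [h2]
      · simp
      · simp
      · simp
      · exact absurd rfl hk
    · have h3 : ¬ (3 = k) := by omega
      have h4 : ¬ (4 = k) := by omega
      have h5 : ¬ (5 = k) := by omega
      have h6 : ¬ (6 = k) := by omega
      simp [h3, h4, h5, h6, h7]

/-- The number of prescribed faces and Euler's relation. -/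
theorem facts {q : ℕ →₀ ℕ} (hq : Admissible q) {K : ℕ} {Dm : Multiset ℕ}
    (hlarge : large q = K ::ₘ Dm) :
    (∀ D ∈ Dm, 7 ≤ D) ∧ total q = q 3 + q 4 + q 5 + (Multiset.card Dm + 1) ∧
      K + (Dm.map (fun D => D - 6)).sum + 6 = 3 * q 3 + 2 * q 4 + q 5 ∧
      (Dm.map (fun D => D - 5)).sum = (Dm.map (fun D => D - 6)).sum + Multiset.card Dm := by
  have hD7 : ∀ D ∈ Dm, 7 ≤ D := by
    intro D hD
    have : D ∈ large q := by rw [hlarge]; exact Multiset.mem_cons_of_mem hD
    exact (Multiset.mem_filter.1 this).2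
  have htot : total q = q 3 + q 4 + q 5 + (Multiset.card Dm + 1) := by
    rw [total_eq, toMultiset_eq hq, hlarge]
    simp; ring
  have heuler : (K : ℤ) = 3 * q 3 + 2 * q 4 + q 5 - 6 +
      (Dm.map (fun k : ℕ => (6 : ℤ) - k)).sum := by
    have e2 := hq.2.2.2.2
    rw [sum_map_eq, toMultiset_eq hq, hlarge] at e2
    simp only [Multiset.map_cons, Multiset.map_add, Multiset.map_replicate, Multiset.sum_cons,
      Multiset.sum_add, Multiset.sum_replicate, nsmul_eq_mul] at e2
    push_cast at e2
    linarith
  have hDsum : (Dm.map (fun k : ℕ => (6 : ℤ) - k)).sum =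
      - ((Dm.map (fun D => D - 6)).sum : ℕ) ∧
      (Dm.map (fun D => D - 5)).sum = (Dm.map (fun D => D - 6)).sum + Multiset.card Dm := by
    clear hlarge htot heuler
    induction Dm using Multiset.induction_on with
    | empty => simp
    | cons D Dm ih =>
      have h7 : 7 ≤ D := hD7 D (by simp)
      obtain ⟨ih1, ih2⟩ := ih (fun D' h => hD7 D' (Multiset.mem_cons_of_mem h))
      refine ⟨?_, ?_⟩
      · rw [Multiset.map_cons, Multiset.sum_cons, Multiset.map_cons, Multiset.sum_cons, ih1]
        push_cast [Nat.cast_sub (by omega : 6 ≤ D)]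
        ring
      · rw [Multiset.map_cons, Multiset.sum_cons, Multiset.map_cons, Multiset.sum_cons, ih2,
          Multiset.card_cons]
        omega
  refine ⟨hD7, htot, ?_, hDsum.2⟩
  rw [hDsum.1] at heuler
  omega

theorem sum_large6 (q : ℕ →₀ ℕ) : ((large q).map (fun k => k - 6)).sum =
    ∑ k ∈ q.support.filter (fun k => 7 ≤ k), (k - 6) * q k := by
  rw [Finset.sum_multiset_map_count]
  have : (large q).toFinset = q.support.filter (fun k => 7 ≤ k) := by
    rw [large, Multiset.toFinset_filter, Finsupp.toFinset_toMultiset]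
  rw [this]
  apply Finset.sum_congr rfl
  intro k hk
  rw [count_large, if_pos (Finset.mem_filter.1 hk).2, smul_eq_mul, mul_comm]

/-- One very large face. -/
theorem case_one (q : ℕ →₀ ℕ) (K : ℕ) (hq : Admissible q) (hK : 7 ≤ K) (hKq : q K ≠ 0)
    (h3 : 2 ≤ q 3) (h4 : 2 ≤ q 4) (hc : 4 * q 3 + 2 * q 4 ≤ K + 6) {n : ℕ}
    (hn : K + 1 ≤ n + total q) : n ∈ S q := by
  set Dm := (large q).erase K with hDm
  have hKl : K ∈ large q := by
    rw [← Multiset.count_pos, count_large, if_pos hK]; omega
  have hlarge : large q = K ::ₘ Dm := (Multiset.cons_erase hKl).symm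
  obtain ⟨f1, f2, f3, f4⟩ := facts hq hlarge
  obtain ⟨a, ha⟩ : ∃ a, q 3 = a + 2 := ⟨q 3 - 2, by omega⟩
  obtain ⟨b, hb⟩ : ∃ b, q 4 = b + 2 := ⟨q 4 - 2, by omega⟩
  obtain ⟨p, hp⟩ := one K a b n Dm.toList (fun D hD => f1 D (Multiset.mem_toList.1 hD))
    (by omega) (by rw [list_sum_eq, f4]; omega)
  refine fin_mem hq (p := p) (hp.congr ?_)
  intro k
  rw [Multiset.coe_toList, hlarge, ha, hb]
  simp only [Multiset.count_add, Multiset.count_cons, Multiset.count_singleton]
  omega

/-- Many large faces. -/
theorem case_many (q : ℕ →₀ ℕ) (K : ℕ) (hq : Admissible q) (hK : 7 ≤ K) (hKq : q K ≠ 0)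
    (hmax : ∀ k, K < k → q k = 0) (h3 : 2 ≤ q 3) (h4 : 2 ≤ q 4)
    (hc : 10 * (q 3 - 2) + 2 * (q 4 - 2) ≤ excess q K) (n : ℕ) : n ∈ S q := by
  set L := (large q).sort (fun a b => b ≤ a) with hL
  have hLm : (L : Multiset ℕ) = large q := Multiset.sort_eq _ _
  have hpw : L.Pairwise (fun a b => b ≤ a) := Multiset.pairwise_sort _ _
  have hKl : K ∈ L := by
    rw [← Multiset.mem_coe, hLm, ← Multiset.count_pos, count_large, if_pos hK]; omega
  have h7 : ∀ k ∈ L, 7 ≤ k := by
    intro k hk
    rw [← Multiset.mem_coe, hLm] at hk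
    exact (Multiset.mem_filter.1 hk).2
  have hle : ∀ k ∈ L, k ≤ K := by
    intro k hk
    rw [← Multiset.mem_coe, hLm, ← Multiset.count_pos, count_large] at hk
    by_contra hlt
    rw [hmax k (by omega)] at hk
    simp at hk
  have hcap : excess q K = cap L := by
    rw [excess, ← sum_large6, ← hLm]
    clear_value L
    clear hLm hL
    match L, hpw, hKl, hle with
    | k :: L', hpw, hKl, hle =>
      obtain ⟨hp1, hp2⟩ := List.pairwise_cons.1 hpw
      have hkK : k = K := by
        apply le_antisymm (hle k (by simp))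
        rcases List.mem_cons.1 hKl with h | h
        · exact h.le
        · exact hp1 K h
      subst hkK
      rw [Multiset.map_coe, Multiset.sum_coe, cap, List.tail_cons, List.map_cons, List.sum_cons]
      omega
  obtain ⟨a, ha⟩ : ∃ a, q 3 = a + 2 := ⟨q 3 - 2, by omega⟩
  obtain ⟨b, hb⟩ : ∃ b, q 4 = b + 2 := ⟨q 4 - 2, by omega⟩
  obtain ⟨p, hp⟩ := many L.length L a b _ le_rfl h7 hpw (by omega) (conf_tube n)
  refine fin_mem hq (p := p + 2) (hp.congr ?_)
  intro k
  rw [hLm, ha, hb]
  simp only [Multiset.count_add, Multiset.count_cons, Multiset.count_singleton,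
    Multiset.insert_eq_cons, Multiset.replicate_succ]
  omega

/-- Many pentagons, no dominant face. -/
theorem case_big (q : ℕ →₀ ℕ) (K : ℕ) (hq : Admissible q) (hK : 7 ≤ K) (hKq : q K ≠ 0)
    (hmax : ∀ k, K < k → q k = 0) (h3 : 2 ≤ q 3) (h4 : 2 ≤ q 4)
    (h5 : 6 * q 3 ≤ q 5 + 7) (htot : K + 2 ≤ total q) (n : ℕ) : n ∈ S q := by
  set Dm := (large q).erase K with hDm
  have hKl : K ∈ large q := by
    rw [← Multiset.count_pos, count_large, if_pos hK]; omega
  have hlarge : large q = K ::ₘ Dm := (Multiset.cons_erase hKl).symm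
  obtain ⟨f1, f2, f3, f4⟩ := facts hq hlarge
  obtain ⟨a, ha⟩ : ∃ a, q 3 = a + 2 := ⟨q 3 - 2, by omega⟩
  obtain ⟨b, hb⟩ : ∃ b, q 4 = b + 2 := ⟨q 4 - 2, by omega⟩
  have hle : ∀ D ∈ Dm, D ≤ K := by
    intro D hD
    have h1 : D ∈ large q := Multiset.mem_of_mem_erase hD
    rw [← Multiset.count_pos, count_large] at h1
    by_contra hlt
    rw [hmax D (by omega)] at h1
    simp at h1
  set C := Dm.map (fun D => D - 4) with hC
  have hC3 : ∀ c ∈ C, 3 ≤ c := by
    intro c hc
    obtain ⟨D, hD, rfl⟩ := Multiset.mem_map.1 hc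
    have := f1 D hD
    omega
  have hCle : ∀ c ∈ C, c + 4 ≤ K := by
    intro c hc
    obtain ⟨D, hD, rfl⟩ := Multiset.mem_map.1 hc
    have := f1 D hD
    have := hle D hD
    omega
  have hcard : Multiset.card C = Multiset.card Dm := Multiset.card_map _ _
  have hsum : C.sum = (Dm.map (fun D => D - 6)).sum + 2 * Multiset.card Dm := by
    rw [hC]
    clear_value Dm C
    clear hlarge hDm f2 f3 f4 hle hC3 hCle hcard hC
    induction Dm using Multiset.induction_on with
    | empty => simp
    | cons D Dm ih =>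
      have h7 : 7 ≤ D := f1 D (by simp)
      have ih' := ih (fun D' h => f1 D' (Multiset.mem_cons_of_mem h))
      rw [Multiset.map_cons, Multiset.sum_cons, Multiset.map_cons, Multiset.sum_cons, ih',
        Multiset.card_cons]
      omega
  have hback : C.map (fun c => c + 4) = Dm := by
    rw [hC, Multiset.map_map]
    conv_rhs => rw [← Multiset.map_id Dm]
    apply Multiset.map_congr rfl
    intro D hD
    have := f1 D hD
    simp only [Function.comp, id]
    omega
  have hwin : Win (K - 5) C a b := by
    rcases Nat.lt_or_ge (K - 5) (3 * a + b + Multiset.card C + 1) with h | h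
    · refine big _ _ _ _ C rfl hC3 (by omega) (Or.inl ?_) ?_ ?_
      · omega
      · omega
      · intro c hc
        have := hCle c hc
        omega
    · refine win_dom hC3 h ?_
      omega
  obtain ⟨p, hp⟩ := hwin _ _ (conf_tube n)
  refine fin_mem hq (p := p + 1) (hp.congr ?_)
  intro k
  have e : 5 + (K - 5) = K := by omega
  rw [hback, hlarge, ha, hb, e]
  simp only [Multiset.count_add, Multiset.count_cons, Multiset.count_singleton,
    Multiset.insert_eq_cons, Multiset.replicate_succ]
  omega

/-- At least `2 p_3 + 149` pentagons, no dominant face. -/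
theorem case_main (q : ℕ →₀ ℕ) (K : ℕ) (hq : Admissible q) (hK : 7 ≤ K) (hKq : q K ≠ 0)
    (hmax : ∀ k, K < k → q k = 0) (h3 : 2 ≤ q 3) (h4 : 2 ≤ q 4)
    (h5 : 2 * q 3 + 149 ≤ q 5) (htot : K + 2 ≤ total q) (n : ℕ) : n ∈ S q := by
  set Dm := (large q).erase K with hDm
  have hKl : K ∈ large q := by
    rw [← Multiset.count_pos, count_large, if_pos hK]; omega
  have hlarge : large q = K ::ₘ Dm := (Multiset.cons_erase hKl).symm
  obtain ⟨f1, f2, f3, f4⟩ := facts hq hlarge
  obtain ⟨a, ha⟩ : ∃ a, q 3 = a + 2 := ⟨q 3 - 2, by omega⟩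
  obtain ⟨b, hb⟩ : ∃ b, q 4 = b + 2 := ⟨q 4 - 2, by omega⟩
  have hle : ∀ D ∈ Dm, D ≤ K := by
    intro D hD
    have h1 : D ∈ large q := Multiset.mem_of_mem_erase hD
    rw [← Multiset.count_pos, count_large] at h1
    by_contra hlt
    rw [hmax D (by omega)] at h1
    simp at h1
  set C := Dm.map (fun D => D - 4) with hC
  have hC3 : ∀ c ∈ C, 3 ≤ c := by
    intro c hc
    obtain ⟨D, hD, rfl⟩ := Multiset.mem_map.1 hc
    have := f1 D hD
    omega
  have hCle : ∀ c ∈ C, c + 4 ≤ K := by
    intro c hc
    obtain ⟨D, hD, rfl⟩ := Multiset.mem_map.1 hc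
    have := f1 D hD
    have := hle D hD
    omega
  have hcard : Multiset.card C = Multiset.card Dm := Multiset.card_map _ _
  have hsum : C.sum = (Dm.map (fun D => D - 6)).sum + 2 * Multiset.card Dm := by
    rw [hC]
    clear_value Dm C
    clear hlarge hDm f2 f3 f4 hle hC3 hCle hcard hC
    induction Dm using Multiset.induction_on with
    | empty => simp
    | cons D Dm ih =>
      have h7 : 7 ≤ D := f1 D (by simp)
      have ih' := ih (fun D' h => f1 D' (Multiset.mem_cons_of_mem h))
      rw [Multiset.map_cons, Multiset.sum_cons, Multiset.map_cons, Multiset.sum_cons, ih',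
        Multiset.card_cons]
      omega
  have hback : C.map (fun c => c + 4) = Dm := by
    rw [hC, Multiset.map_map]
    conv_rhs => rw [← Multiset.map_id Dm]
    apply Multiset.map_congr rfl
    intro D hD
    have := f1 D hD
    simp only [Function.comp, id]
    omega
  have hwin : Win5 ((K - 4) ::ₘ C) a b := by
    refine stage0 (Multiset.card C + 1) a b _ (Multiset.card_cons _ _) ?_ ?_ ?_
    · intro c hc
      rcases Multiset.mem_cons.1 hc with h | h
      · omega
      · exact hC3 c h
    · rw [Multiset.sum_cons]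
      omega
    · intro c hc
      have : c + 4 ≤ K := by
        rcases Multiset.mem_cons.1 hc with h | h
        · omega
        · exact hCle c h
      rw [Multiset.sum_cons]
      omega
  obtain ⟨p, hp⟩ := hwin _ (conf_tube n)
  refine fin_mem hq (p := p + 1) (hp.congr ?_)
  intro k
  have e : K - 4 + 4 = K := by omega
  rw [Multiset.map_cons, hback, hlarge, ha, hb, e]
  simp only [Multiset.count_add, Multiset.count_cons, Multiset.count_singleton,
    Multiset.insert_eq_cons, Multiset.replicate_succ]
  omega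

/-- The condition on the pentagons, for at most `K + 1` prescribed faces. -/
theorem need_le {q : ℕ →₀ ℕ} {K : ℕ} (hq : Admissible q) (hK : 7 ≤ K) (hKq : q K ≠ 0)
    (h3 : 2 ≤ q 3) (h5 : 2 * q 3 ≤ q 5 + 1) (htot : total q ≤ K + 1) : need q K ≤ q 5 := by
  have hKl : K ∈ large q := by
    rw [← Multiset.count_pos, count_large, if_pos hK]; omega
  have hlarge : large q = K ::ₘ (large q).erase K := (Multiset.cons_erase hKl).symm
  obtain ⟨f1, f2, f3, f4⟩ := facts hq hlarge
  have hrest : rest q K = (((large q).erase K).map (fun D => D - 5)).sum := by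
    rw [rest, ← sum_large]
    conv_lhs => rw [hlarge]
    rw [Multiset.map_cons, Multiset.sum_cons]
    omega
  unfold need
  split_ifs <;> omega

/-- **Theorem.** Let `q` be an admissible sequence with at least two triangles, and let `K ≥ 7` be
its largest face size.  Suppose that there are at least two quadrangles and one of the following
five conditions holds: (i) `2 p_3 + 149 ≤ p_5`; (ii) `6 p_3 - 7 ≤ p_5` or
`11 p_3 + 2 p_4 - 25 ≤ p_5` (weaker than (i) only if there are few triangles);
(iii) `4 p_3 + 2 p_4 - 6 ≤ K`; (iv) `10 (p_3 - 2) + 2 (p_4 - 2) ≤ excess q K`;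
(v) `total q ≤ K + 1` and `need q K ≤ p_5`; or that there is exactly one quadrangle and
(vi) `total q ≤ K` and `need q K + 2 ≤ p_5`.
Then `S(q)` consists exactly of the integers `n ≥ 0` with `n ≥ K + 1 - total q`. -/
theorem result (q : ℕ →₀ ℕ) (K : ℕ) (hq : Admissible q) (hK : 7 ≤ K) (hKq : q K ≠ 0)
    (hmax : ∀ k, K < k → q k = 0) (h3 : 2 ≤ q 3)
    (hcase : (2 ≤ q 4 ∧ (2 * q 3 + 149 ≤ q 5 ∨ 6 * q 3 ≤ q 5 + 7 ∨
        11 * q 3 + 2 * q 4 ≤ q 5 + 25 ∨ 4 * q 3 + 2 * q 4 ≤ K + 6 ∨
        10 * (q 3 - 2) + 2 * (q 4 - 2) ≤ excess q K ∨ (total q ≤ K + 1 ∧ need q K ≤ q 5))) ∨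
      (q 4 = 1 ∧ total q ≤ K ∧ need q K + 2 ≤ q 5)) :
    S q = {n | K + 1 ≤ n + total q} := by
  have hiii : ∀ (h4 : 2 ≤ q 4) (hc : 10 * (q 3 - 2) + 2 * (q 4 - 2) ≤ excess q K),
      S q = {n | K + 1 ≤ n + total q} := by
    intro h4 hc
    apply Set.Subset.antisymm
    · intro n hn
      exact lower hK hKq hn
    · intro n _
      exact case_many q K hq hK hKq hmax h3 h4 hc n
  have hii : ∀ (h4 : 2 ≤ q 4) (hc : 4 * q 3 + 2 * q 4 ≤ K + 6),
      S q = {n | K + 1 ≤ n + total q} := by
    intro h4 hc
    apply Set.Subset.antisymm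
    · intro n hn
      exact lower hK hKq hn
    · intro n hn
      exact case_one q K hq hK hKq h3 h4 hc hn
  rcases hcase with ⟨h4, h | h | h | h | h | ⟨h, h'⟩⟩ | ⟨h4, h, h'⟩
  · rcases Nat.lt_or_ge (K + 1) (total q) with h1 | h1
    · apply Set.Subset.antisymm
      · intro n hn
        exact lower hK hKq hn
      · intro n _
        exact case_main q K hq hK hKq hmax h3 h4 h h1 n
    · exact dominant q K hq hK hKq h3 (Or.inl ⟨h4, h1, need_le hq hK hKq h3 (by omega) h1⟩)
  · rcases Nat.lt_or_ge (K + 1) (total q) with h1 | h1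
    · apply Set.Subset.antisymm
      · intro n hn
        exact lower hK hKq hn
      · intro n _
        exact case_big q K hq hK hKq hmax h3 h4 h h1 n
    · exact dominant q K hq hK hKq h3 (Or.inl ⟨h4, h1, need_le hq hK hKq h3 (by omega) h1⟩)
  · rcases Nat.lt_or_ge (K + 6) (4 * q 3 + 2 * q 4) with h1 | h1
    · apply hiii h4
      have hKl : K ∈ large q := by
        rw [← Multiset.count_pos, count_large, if_pos hK]; omega
      have hlarge : large q = K ::ₘ (large q).erase K := (Multiset.cons_erase hKl).symm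
      obtain ⟨-, -, f3, -⟩ := facts hq hlarge
      have h6 : excess q K = (((large q).erase K).map (fun D => D - 6)).sum := by
        rw [excess, ← sum_large6]
        conv_lhs => rw [hlarge]
        rw [Multiset.map_cons, Multiset.sum_cons]
        omega
      omega
    · exact hii h4 h1
  · exact hii h4 h
  · exact hiii h4 h
  · exact dominant q K hq hK hKq h3 (Or.inl ⟨h4, h, h'⟩)
  · exact dominant q K hq hK hKq h3 (Or.inr ⟨h4, h, h'⟩)

end Pool.Agent.Results.MP_028c7c_co.HexagonNumbers
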