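import Pool.Agent.Results.MP_028c7c_co.HexagonNumbers
import Pool.Agent.Helper79.HB.B8
import Pool.Agent.Helper79.HE.Top
import Pool.Agent.Helper79.HF.Ends

/-!
# The threshold for the number of hexagons (MP_028c7c_co)

The definitions (`Admissible`, `S`, `total`, triangulated spheres) are those of
`HexagonNumbers.lean`.
-/

namespace Pool.Agent.Results.MP_028c7c_co.HexagonThreshold

open Pool.Agent.Helper79.HX Pool.Agent.Helper79.HB Pool.Agent.Helper79.HD Finset
open Pool.Agent.Results.MP_028c7c_co.HexagonNumbers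

/-- The number of prescribed faces with at least seven sides. -/
def bigFaces (q : ℕ →₀ ℕ) : ℕ := ∑ k ∈ q.support.filter (fun k => 7 ≤ k), q k

theorem bigFaces_eq (q : ℕ →₀ ℕ) : bigFaces q = Multiset.card (large q) := by
  have h1 : Multiset.card (large q) = ∑ k ∈ (large q).toFinset, (large q).count k :=
    (Multiset.toFinset_sum_count_eq _).symm
  have h2 : (large q).toFinset = q.support.filter (fun k => 7 ≤ k) := by
    rw [large, Multiset.toFinset_filter, Finsupp.toFinset_toMultiset]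
  rw [h1, h2]
  apply Finset.sum_congr rfl
  intro k hk
  rw [count_large, if_pos (Finset.mem_filter.1 hk).2]

/-- the necessary condition -/
theorem necessary {q : ℕ →₀ ℕ} (hq : Admissible q) (hne : bigFaces q ≠ 0) {n : ℕ}
    (hn : n ∈ S q) : 2 * q 3 ≤ 2 * n + q 5 + 8 * bigFaces q := by
  obtain ⟨T, hS, h6, hk⟩ := hn
  have hcnt : ∀ v ∈ verts T, deg T v ≠ 6 → q (deg T v) ≠ 0 := by
    intro v hv hv6
    rw [← hk _ hv6]
    have hv' : v ∈ (verts T).filter (fun w => deg T w = deg T v) :=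
      Finset.mem_filter.2 ⟨hv, rfl⟩
    exact (Finset.card_pos.2 ⟨v, hv'⟩).ne'
  have hdeg : ∀ v ∈ verts T, 3 ≤ deg T v := by
    intro v hv
    by_contra hlt
    have h := hcnt v hv (by omega)
    obtain ⟨h0, h1, h2, -, -⟩ := hq
    have : deg T v = 0 ∨ deg T v = 1 ∨ deg T v = 2 := by omega
    rcases this with h' | h' | h' <;> rw [h'] at h
    · exact h h0
    · exact h h1
    · exact h h2
  have hLam : (Lam T).card = bigFaces q := by
    have h1 : (Lam T).card = ∑ k ∈ q.support.filter (fun k => 7 ≤ k),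
        ((Lam T).filter (fun v => deg T v = k)).card := by
      apply Finset.card_eq_sum_card_fiberwise
      intro v hv
      obtain ⟨hv1, hv2⟩ := Finset.mem_filter.1 hv
      simp only [Finset.coe_filter, Set.mem_ofPred_eq, Finsupp.mem_support_iff]
      exact ⟨hcnt v hv1 (by omega), hv2⟩
    rw [h1, bigFaces]
    apply Finset.sum_congr rfl
    intro k hk'
    have hk7 := (Finset.mem_filter.1 hk').2
    rw [← hk k (by omega), faceCount]
    congr 1
    ext v
    simp only [Lam, Finset.mem_filter]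
    constructor
    · rintro ⟨⟨a, -⟩, b⟩; exact ⟨a, b⟩
    · rintro ⟨a, b⟩; exact ⟨⟨a, by omega⟩, b⟩
  have hne' : (Lam T).Nonempty := by
    rw [← Finset.card_pos]; omega
  have hlb := lower_bound hS hne' hdeg
  have e3 := hk 3 (by omega)
  have e5 := hk 5 (by omega)
  rw [faceCount] at h6 e3 e5
  omega

/-- The numerical data. -/
theorem setup (q : ℕ →₀ ℕ) (K : ℕ) (hq : Admissible q) (hK : 7 ≤ K) (hKq : q K ≠ 0)
    (hmax : ∀ k, K < k → q k = 0) : ∃ Dm C : Multiset ℕ, large q = K ::ₘ Dm ∧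
      C.map (fun c => c + 4) = Dm ∧ Multiset.card C = Multiset.card Dm ∧
      bigFaces q = Multiset.card Dm + 1 ∧ (∀ c ∈ C, 3 ≤ c ∧ c ≤ K - 4) ∧
      C.sum = (Dm.map (fun D => D - 6)).sum + 2 * Multiset.card Dm := by
  have hKl : K ∈ large q := by
    rw [← Multiset.count_pos, count_large, if_pos hK]; omega
  have hlarge : large q = K ::ₘ (large q).erase K := (Multiset.cons_erase hKl).symm
  obtain ⟨f1, f2, f3, f4⟩ := facts hq hlarge
  refine ⟨(large q).erase K, ((large q).erase K).map (fun D => D - 4), hlarge, ?_,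
    Multiset.card_map _ _, ?_, ?_, ?_⟩
  · rw [Multiset.map_map]
    conv_rhs => rw [← Multiset.map_id ((large q).erase K)]
    apply Multiset.map_congr rfl
    intro D hD
    have := f1 D hD
    simp only [Function.comp, id]
    omega
  · conv_lhs => rw [bigFaces_eq, hlarge, Multiset.card_cons]
  · intro c hc
    obtain ⟨D, hD, rfl⟩ := Multiset.mem_map.1 hc
    have := f1 D hD
    have h2 : D ≤ K := by
      have h1 : D ∈ large q := Multiset.mem_of_mem_erase hD
      rw [← Multiset.count_pos, count_large] at h1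
      by_contra hlt
      rw [hmax D (by omega)] at h1
      simp at h1
    omega
  · clear f2 f3 f4 hlarge hKl
    generalize (large q).erase K = Dm at f1 ⊢
    induction Dm using Multiset.induction_on with
    | empty => simp
    | cons D Dm ih =>
      have h7 : 7 ≤ D := f1 D (by simp)
      have ih' := ih (fun D' h => f1 D' (Multiset.mem_cons_of_mem h))
      rw [Multiset.map_cons, Multiset.sum_cons, Multiset.map_cons, Multiset.sum_cons, ih',
        Multiset.card_cons]
      omega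

set_option maxRecDepth 8000 in
/-- The construction for `p_3, p_4 ≥ 2`. -/
theorem construct (q : ℕ →₀ ℕ) (K : ℕ) (hq : Admissible q) (hK : 7 ≤ K) (hKq : q K ≠ 0)
    (hmax : ∀ k, K < k → q k = 0) (h3 : 2 ≤ q 3) (h4 : 2 ≤ q 4) (h5 : 11 ≤ q 5) {n : ℕ}
    (hn : K + 5 * bigFaces q + 11 ≤ n + total q) (hn2 : 20 * bigFaces q + 230 ≤ n)
    (hn3 : 2 * q 3 + 40 * bigFaces q + 470 ≤ 2 * n + q 5) : n ∈ S q := by
  obtain ⟨Dm, C, hlarge, hback, hcard, hN, hC3, hsum⟩ := setup q K hq hK hKq hmax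
  obtain ⟨f1, f2, f3, f4⟩ := facts hq hlarge
  obtain ⟨e, a, ha, g1, g2⟩ : ∃ e a, q 3 = a + e + 2 ∧ 2 * e + 11 ≤ q 5 ∧
      (a = 0 ∨ q 5 ≤ 2 * e + 12) := by
    rcases Nat.le_total (q 3 - 2) ((q 5 - 11) / 2) with h | h
    · exact ⟨q 3 - 2, 0, by omega, by omega, Or.inl rfl⟩
    · exact ⟨(q 5 - 11) / 2, q 3 - 2 - (q 5 - 11) / 2, by omega, by omega, Or.inr (by omega)⟩
  obtain ⟨b, hb⟩ : ∃ b, q 4 = b + 2 := ⟨q 4 - 2, by omega⟩
  obtain ⟨n', hn', h⟩ := Pool.Agent.Helper79.HE.all_faces (K := K - 4) (C := C) (e := e) (a := a)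
    (b := b) (N := n) (by omega) hC3 (by omega) (by omega) (by omega)
  obtain ⟨p, hp⟩ := h _ (conf_tube (n - n'))
  refine fin_mem hq (p := p + 1) (hp.congr ?_)
  intro k
  have e1 : K - 4 + 4 = K := by omega
  have e2 : n = n - n' + n' := by omega
  rw [hback, hlarge, ha, hb, e1]
  conv_rhs => rw [e2]
  simp only [Pool.Agent.Helper79.HD.sml, Multiset.count_add, Multiset.count_cons,
    Multiset.count_singleton, Multiset.insert_eq_cons, Multiset.replicate_succ,
    Multiset.replicate_add]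
  omega

set_option maxRecDepth 8000 in
/-- The construction without triangles and quadrangles at the ends. -/
theorem construct2 (q : ℕ →₀ ℕ) (K : ℕ) (hq : Admissible q) (hK : 7 ≤ K) (hKq : q K ≠ 0)
    (hmax : ∀ k, K < k → q k = 0) (h5 : 24 ≤ q 5) {n : ℕ}
    (hn : K + 5 * bigFaces q + 41 ≤ n + total q) (hn2 : 20 * bigFaces q + 254 ≤ n)
    (hn3 : 2 * q 3 + 40 * bigFaces q + 533 ≤ 2 * n + q 5) : n ∈ S q := by
  obtain ⟨Dm, C, hlarge, hback, hcard, hN, hC3, hsum⟩ := setup q K hq hK hKq hmax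
  obtain ⟨f1, f2, f3, f4⟩ := facts hq hlarge
  obtain ⟨e, a, ha, g1, g2⟩ : ∃ e a, q 3 = a + e ∧ 2 * e + 24 ≤ q 5 ∧
      (a = 0 ∨ q 5 ≤ 2 * e + 25) := by
    rcases Nat.le_total (q 3) ((q 5 - 24) / 2) with h | h
    · exact ⟨q 3, 0, by omega, by omega, Or.inl rfl⟩
    · exact ⟨(q 5 - 24) / 2, q 3 - (q 5 - 24) / 2, by omega, by omega, Or.inr (by omega)⟩
  obtain ⟨p, hp⟩ := Pool.Agent.Helper79.HF.all (K := K - 4) (C := C) (e := e) (a := a)
    (b := q 4) (n := n) (by omega) hC3 (by omega) (by omega) (by omega)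
  refine fin_mem hq (p := p + 14) (hp.congr ?_)
  intro k
  have e1 : K - 4 + 4 = K := by omega
  rw [hback, hlarge, ha, e1]
  simp only [Multiset.count_add, Multiset.count_cons, Multiset.count_singleton]
  omega

set_option maxRecDepth 8000 in
/-- The sufficient condition. -/
theorem sufficient (q : ℕ →₀ ℕ) (K : ℕ) (hq : Admissible q) (hK : 7 ≤ K) (hKq : q K ≠ 0)
    (hmax : ∀ k, K < k → q k = 0) (h3 : 2 ≤ q 3) (h4 : 2 ≤ q 4) (h5 : 11 ≤ q 5) {n : ℕ}
    (hn : K + 1 ≤ n + total q) (hn2 : 2 * q 3 + 40 * bigFaces q + 620 ≤ 2 * n + q 5) :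
    n ∈ S q := by
  by_cases hA : 2 * q 3 + 149 ≤ q 5
  · have := HexagonNumbers.result q K hq hK hKq hmax h3 (Or.inl ⟨h4, Or.inl hA⟩)
    rw [this]
    exact hn
  by_cases hB : total q ≤ K + 1 ∧ need q K ≤ q 5
  · have := dominant q K hq hK hKq h3 (Or.inl ⟨h4, hB.1, hB.2⟩)
    rw [this]
    exact hn
  have hKl : K ∈ large q := by
    rw [← Multiset.count_pos, count_large, if_pos hK]; omega
  have hlarge : large q = K ::ₘ (large q).erase K := (Multiset.cons_erase hKl).symm
  obtain ⟨f1, f2, f3, f4⟩ := facts hq hlarge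
  have hN : bigFaces q = Multiset.card ((large q).erase K) + 1 := by
    conv_lhs => rw [bigFaces_eq, hlarge, Multiset.card_cons]
  have hrest : rest q K = (((large q).erase K).map (fun D => D - 5)).sum := by
    have h1 := sum_large q
    rw [hlarge, Multiset.map_cons, Multiset.sum_cons] at h1
    rw [rest, ← h1]; omega
  refine construct q K hq hK hKq hmax h3 h4 h5 ?_ (by omega) (by omega)
  rcases Nat.lt_or_ge (K + 1) (total q) with h | h
  · omega
  · have h1 : ¬ need q K ≤ q 5 := fun h' => hB ⟨h, h'⟩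
    unfold need at h1
    split_ifs at h1 with h2
    · omega
    · omega

set_option maxRecDepth 8000 in
/-- **Theorem.** Let `q` be an admissible sequence with largest face size `K ≥ 7`, and let `m` be the
number of its faces with at least seven sides.
(A) Every `n ∈ S(q)` satisfies `n ≥ K + 1 - |q|` and `2 n ≥ 2 p_3 - p_5 - 8 m`.
(B) If `p_3, p_4 ≥ 2` and `p_5 ≥ 11`, then every `n` with `n ≥ K + 1 - |q|` and
`2 n ≥ 2 p_3 - p_5 + 40 m + 620` belongs to `S(q)`.
(C) If `p_5 ≥ 24`, then every `n` with `n ≥ c`, `n ≥ K - |q| + c` and `n ≥ p_3 - p_5 / 2 + c`, where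
`c = 20 m + 270`, belongs to `S(q)`. -/
theorem result (q : ℕ →₀ ℕ) (K : ℕ) (hq : Admissible q) (hK : 7 ≤ K) (hKq : q K ≠ 0)
    (hmax : ∀ k, K < k → q k = 0) :
    (∀ n ∈ S q, K + 1 ≤ n + total q ∧ 2 * q 3 ≤ 2 * n + q 5 + 8 * bigFaces q) ∧
    (2 ≤ q 3 → 2 ≤ q 4 → 11 ≤ q 5 → ∀ n, K + 1 ≤ n + total q →
      2 * q 3 + 40 * bigFaces q + 620 ≤ 2 * n + q 5 → n ∈ S q) ∧
    (24 ≤ q 5 → ∀ n, 20 * bigFaces q + 270 ≤ n → K + (20 * bigFaces q + 270) ≤ n + total q →
      2 * q 3 + 2 * (20 * bigFaces q + 270) ≤ 2 * n + q 5 → n ∈ S q) := by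
  refine ⟨fun n hn => ⟨lower hK hKq hn, necessary hq ?_ hn⟩, ?_, ?_⟩
  · have hKl : K ∈ large q := by
      rw [← Multiset.count_pos, count_large, if_pos hK]; omega
    rw [bigFaces_eq]
    exact (Multiset.card_pos_iff_exists_mem.2 ⟨K, hKl⟩).ne'
  · intro h3 h4 h5 n hn hn2
    exact sufficient q K hq hK hKq hmax h3 h4 h5 hn hn2
  · intro h5 n h1 h2 h3
    exact construct2 q K hq hK hKq hmax h5 (by omega) (by omega) (by omega)

end Pool.Agent.Results.MP_028c7c_co.HexagonThreshold
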